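import Pool.Agent.Helper57.BI.Defs

/-! Block BI-8 (helper67 for helper57): `hardy`. -/

open MeasureTheory Complex Filter Topology

namespace Pool.Agent.Helper57.BI

namespace HardyAux

/-- multiplication by a character shifts the Fourier coefficients -/
theorem coeff_fourier_mul (f : AddCircle (1 : ℝ) → ℂ) (k n : ℤ) :
    fourierCoeff (fun x => fourier k x * f x) n = fourierCoeff f (n - k) := by
  unfold fourierCoeff
  refine integral_congr_ae (Eventually.of_forall fun x => ?_)
  simp only [smul_eq_mul]
  rw [← mul_assoc, ← fourier_add]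
  congr 3
  ring

theorem integrable_mul (h : C(AddCircle (1 : ℝ), ℂ)) {f : AddCircle (1 : ℝ) → ℂ}
    (hf : Integrable f AddCircle.haarAddCircle) :
    Integrable (fun x => h x * f x) AddCircle.haarAddCircle :=
  hf.bdd_mul h.continuous.aestronglyMeasurable (c := ‖h‖)
    (Eventually.of_forall fun x => h.norm_coe_le_norm x)

/-- the analytic polynomial -/
noncomputable def pol (m : ℕ) (c : ℕ → ℂ) : C(AddCircle (1 : ℝ), ℂ) :=
  ∑ k ∈ Finset.range (m + 1), c k • fourier (k : ℤ)

theorem pol_apply (m : ℕ) (c : ℕ → ℂ) (x : AddCircle (1 : ℝ)) :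
    pol m c x = ∑ k ∈ Finset.range (m + 1), c k * fourier (k : ℤ) x := by
  simp [pol, ContinuousMap.sum_apply]

theorem coeff_pol_mul (m : ℕ) (c : ℕ → ℂ) (N : ℤ) {f : AddCircle (1 : ℝ) → ℂ}
    (hf : Integrable f AddCircle.haarAddCircle) (hz : ∀ n : ℤ, n < N → fourierCoeff f n = 0) :
    ∀ n : ℤ, n < N → fourierCoeff (fun x => pol m c x * f x) n = 0 := by
  intro n hn
  have h1 : fourierCoeff (fun x => pol m c x * f x) n =
      ∑ k ∈ Finset.range (m + 1), c k * fourierCoeff (fun x => fourier (k : ℤ) x * f x) n := by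
    unfold fourierCoeff
    have h2 : ∀ k ∈ Finset.range (m + 1), Integrable
        (fun x => c k * (fourier (-n) x • (fourier (k : ℤ) x * f x)))
        AddCircle.haarAddCircle := by
      intro k _
      refine Integrable.const_mul ?_ _
      simp only [smul_eq_mul]
      exact integrable_mul (fourier (-n)) (integrable_mul (fourier (k : ℤ)) hf)
    rw [show (∑ k ∈ Finset.range (m + 1), c k *
        ∫ x, fourier (-n) x • (fourier (k : ℤ) x * f x) ∂AddCircle.haarAddCircle) =
        ∑ k ∈ Finset.range (m + 1),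
        ∫ x, c k * (fourier (-n) x • (fourier (k : ℤ) x * f x)) ∂AddCircle.haarAddCircle from
      Finset.sum_congr rfl fun k _ => (integral_const_mul _ _).symm]
    rw [← integral_finsetSum _ h2]
    refine integral_congr_ae (Eventually.of_forall fun x => ?_)
    simp only [smul_eq_mul, pol_apply]
    rw [Finset.sum_mul, Finset.mul_sum]
    refine Finset.sum_congr rfl fun k _ => ?_
    ring
  rw [h1]
  refine Finset.sum_eq_zero fun k _ => ?_
  rw [coeff_fourier_mul, hz _ (by omega), mul_zero]

end HardyAux

open HardyAux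

/-- BI-8 -/
theorem hardy (m : ℕ) (c : ℕ → ℂ) (N : ℤ) (g : AddCircle (1 : ℝ) → ℂ)
    (hg : MemLp g 2 AddCircle.haarAddCircle) (hz : ∀ n : ℤ, n < N → fourierCoeff g n = 0) :
    ∀ n : ℤ, n < N → fourierCoeff
      (fun x => Complex.exp (∑ k ∈ Finset.range (m + 1), c k * fourier (k : ℤ) x) * g x) n = 0 := by
  have hgi : Integrable g AddCircle.haarAddCircle := hg.integrable (by norm_num)
  -- powers
  have hpow : ∀ j : ℕ, Integrable (fun x => (pol m c x) ^ j * g x) AddCircle.haarAddCircle ∧
      ∀ n : ℤ, n < N → fourierCoeff (fun x => (pol m c x) ^ j * g x) n = 0 := by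
    intro j
    induction j with
    | zero => simpa using ⟨hgi, hz⟩
    | succ j ih =>
      have h1 : (fun x => (pol m c x) ^ (j + 1) * g x) =
          fun x => pol m c x * ((pol m c x) ^ j * g x) := by
        funext x
        rw [pow_succ']
        ring
      rw [h1]
      exact ⟨integrable_mul _ ih.1, coeff_pol_mul m c N ih.1 ih.2⟩
  intro n hn
  set F : ℕ → AddCircle (1 : ℝ) → ℂ := fun j x =>
    fourier (-n) x * ((1 / (j.factorial : ℂ)) * ((pol m c x) ^ j * g x)) with hF
  have hFi : ∀ j, Integrable (F j) AddCircle.haarAddCircle := fun j =>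
    integrable_mul (fourier (-n)) ((hpow j).1.const_mul _)
  have hF0 : ∀ j, ∫ x, F j x ∂AddCircle.haarAddCircle = 0 := by
    intro j
    have h1 := (hpow j).2 n hn
    have h2 : ∫ x, F j x ∂AddCircle.haarAddCircle =
        (1 / (j.factorial : ℂ)) * fourierCoeff (fun x => (pol m c x) ^ j * g x) n := by
      unfold fourierCoeff
      rw [← integral_const_mul]
      refine integral_congr_ae (Eventually.of_forall fun x => ?_)
      simp only [hF, smul_eq_mul]
      ring
    rw [h2, h1, mul_zero]
  have hsum : Summable fun j => ∫ x, ‖F j x‖ ∂AddCircle.haarAddCircle := by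
    refine Summable.of_nonneg_of_le (fun j => integral_nonneg fun x => norm_nonneg _)
      (fun j => ?_) ((Real.summable_pow_div_factorial ‖pol m c‖).mul_right
        (∫ x, ‖g x‖ ∂AddCircle.haarAddCircle))
    rw [← integral_const_mul]
    refine integral_mono_of_nonneg (Eventually.of_forall fun x => norm_nonneg _)
      (hgi.norm.const_mul _) (Eventually.of_forall fun x => ?_)
    simp only [hF, norm_mul, norm_div, norm_one, norm_pow, RCLike.norm_natCast]
    have h1 : ‖(fourier (-n) x : ℂ)‖ = 1 := by
      rw [fourier_apply]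
      exact Circle.norm_coe _
    rw [h1, one_mul]
    have h2 : ‖pol m c x‖ ≤ ‖pol m c‖ := (pol m c).norm_coe_le_norm x
    calc 1 / (j.factorial : ℝ) * (‖pol m c x‖ ^ j * ‖g x‖)
        ≤ 1 / (j.factorial : ℝ) * (‖pol m c‖ ^ j * ‖g x‖) := by gcongr
      _ = ‖pol m c‖ ^ j / (j.factorial : ℝ) * ‖g x‖ := by ring
  have hHS := hasSum_integral_of_summable_integral_norm hFi hsum
  have h3 : HasSum (fun j => ∫ x, F j x ∂AddCircle.haarAddCircle) 0 := by
    simp only [hF0]
    exact hasSum_zero
  have h4 := hHS.unique h3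
  have h5 : fourierCoeff
      (fun x => Complex.exp (∑ k ∈ Finset.range (m + 1), c k * fourier (k : ℤ) x) * g x) n =
      ∫ x, ∑' j, F j x ∂AddCircle.haarAddCircle := by
    unfold fourierCoeff
    refine integral_congr_ae (Eventually.of_forall fun x => ?_)
    simp only [smul_eq_mul, hF]
    rw [← pol_apply]
    have h6 : HasSum (fun j : ℕ => (1 / (j.factorial : ℂ)) * (pol m c x) ^ j)
        (Complex.exp (pol m c x)) := by
      have h7 := NormedSpace.expSeries_div_hasSum_exp (pol m c x)
      rw [← Complex.exp_eq_exp_ℂ] at h7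
      refine h7.congr_fun ?_
      intro j
      ring
    have h8 := ((h6.mul_right (g x)).mul_left (fourier (-n) x : ℂ)).tsum_eq
    rw [← h8]
    refine tsum_congr fun j => ?_
    ring
  rw [h5, h4]

end Pool.Agent.Helper57.BI
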