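import Pool.Agent.Helper57.BI.Defs

/-! Block BI-9 (helper67 for helper57): `sum_sq_deriv`. -/

open MeasureTheory Complex Filter Topology

namespace Pool.Agent.Helper57.BI

theorem sqd_coeff_deriv (F F' : C(AddCircle (1 : ℝ), ℂ))
    (hd : ∀ t : ℝ, HasDerivAt (fun t : ℝ => F (t : AddCircle (1 : ℝ)))
      (F' (t : AddCircle (1 : ℝ))) t) (l : ℤ) :
    fourierCoeff F' l = 2 * Real.pi * Complex.I * l * fourierCoeff F l := by
  rw [fourierCoeff_eq_intervalIntegral F' l 0, fourierCoeff_eq_intervalIntegral F l 0]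
  have hc1 : Continuous fun t : ℝ => (t : AddCircle (1 : ℝ)) := AddCircle.continuous_mk' 1
  have hcF : Continuous fun t : ℝ => F (t : AddCircle (1 : ℝ)) := F.continuous.comp hc1
  have hcF' : Continuous fun t : ℝ => F' (t : AddCircle (1 : ℝ)) := F'.continuous.comp hc1
  have hcf : Continuous fun t : ℝ => (fourier (-l) (t : AddCircle (1 : ℝ)) : ℂ) :=
    (fourier (-l)).continuous.comp hc1
  have hD : ∀ t : ℝ, HasDerivAt
      (fun t : ℝ => (fourier (-l) (t : AddCircle (1 : ℝ)) : ℂ) * F (t : AddCircle (1 : ℝ)))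
      ((-(2 * Real.pi * Complex.I * l)) * ((fourier (-l) (t : AddCircle (1 : ℝ)) : ℂ) *
        F (t : AddCircle (1 : ℝ))) + (fourier (-l) (t : AddCircle (1 : ℝ)) : ℂ) *
        F' (t : AddCircle (1 : ℝ))) t := by
    intro t
    have h1 := (hasDerivAt_fourier_neg 1 l t).mul (hd t)
    refine h1.congr_deriv ?_
    push_cast
    ring
  have h2 := intervalIntegral.integral_eq_sub_of_hasDerivAt (a := 0) (b := 0 + 1)
    (fun t _ => hD t) (by
      apply Continuous.intervalIntegrable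
      fun_prop)
  have hper : ((0 + 1 : ℝ) : AddCircle (1 : ℝ)) = ((0 : ℝ) : AddCircle (1 : ℝ)) := by
    rw [zero_add]
    exact (AddCircle.coe_period 1).trans (by simp)
  rw [hper, sub_self] at h2
  rw [intervalIntegral.integral_add, intervalIntegral.integral_const_mul] at h2
  · simp only [smul_eq_mul, div_one, one_smul]
    have h3 := eq_neg_of_add_eq_zero_right h2
    rw [h3]
    ring
  · apply Continuous.intervalIntegrable
    fun_prop
  · apply Continuous.intervalIntegrable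
    fun_prop

/-- BI-9 -/
theorem sum_sq_deriv (F F' : C(AddCircle (1 : ℝ), ℂ))
    (hd : ∀ t : ℝ, HasDerivAt (fun t : ℝ => F (t : AddCircle (1 : ℝ))) (F' (t : AddCircle (1 : ℝ))) t) :
    HasSum (fun l : ℤ => (2 * Real.pi * l) ^ 2 * ‖fourierCoeff F l‖ ^ 2)
      (∫ t : AddCircle (1 : ℝ), ‖F' t‖ ^ 2 ∂AddCircle.haarAddCircle) := by
  have h1 := hasSum_sq_fourierCoeff (ContinuousMap.toLp 2 AddCircle.haarAddCircle ℂ F')
  have h2 : ∫ t : AddCircle (1 : ℝ),
      ‖(ContinuousMap.toLp 2 AddCircle.haarAddCircle ℂ F' : AddCircle (1 : ℝ) → ℂ) t‖ ^ 2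
        ∂AddCircle.haarAddCircle = ∫ t : AddCircle (1 : ℝ), ‖F' t‖ ^ 2 ∂AddCircle.haarAddCircle := by
    refine integral_congr_ae ?_
    filter_upwards [ContinuousMap.coeFn_toLp (p := 2) (𝕜 := ℂ) AddCircle.haarAddCircle F'] with t ht
    rw [ht]
  rw [h2] at h1
  refine h1.congr_fun fun l => ?_
  rw [fourierCoeff_toLp, sqd_coeff_deriv F F' hd l, norm_mul, norm_mul, norm_mul, norm_mul,
    Complex.norm_I, mul_one]
  have h3 : ‖(l : ℂ)‖ = |(l : ℝ)| := by
    rw [← Complex.ofReal_intCast, Complex.norm_real, Real.norm_eq_abs]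
  have h4 : ‖(Real.pi : ℂ)‖ = Real.pi := by
    rw [Complex.norm_real, Real.norm_eq_abs, abs_of_pos Real.pi_pos]
  rw [h3, h4, Complex.norm_ofNat]
  have h5 : |(l : ℝ)| ^ 2 = (l : ℝ) ^ 2 := sq_abs _
  calc (2 * Real.pi * (l : ℝ)) ^ 2 * ‖fourierCoeff F l‖ ^ 2
      = (2 * Real.pi) ^ 2 * (l : ℝ) ^ 2 * ‖fourierCoeff F l‖ ^ 2 := by ring
    _ = (2 * Real.pi * |(l : ℝ)| * ‖fourierCoeff F l‖) ^ 2 := by rw [← h5]; ring

end Pool.Agent.Helper57.BI
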